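import Mathlib
import Pool.Agent.Y969.QM4

open Filter Topology MeasureTheory

namespace Pool.Agent.Results.MP_bc6037_nt.ExceptionalSets

open Classical in
/-- The conjectured bound `Δ₂(x) ≪ x^{1/4+ε}` of the divisor problem (`k = 2`) at all real `x` outside very few
unit intervals, in short windows: `Δ₂(x) = ∑_{n ≤ x} d(n) - x log x - (2γ-1)x`. For every `δ > 0` there is `c > 0`
such that for all `0 < ε ≤ c` and all windows `[K, K+H)` with `H ≥ K^{1/2+δ}` the number of the integers `n` of the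
window for which `|Δ₂(y)| > y^{1/4+ε}` for at least one real `y ∈ [n, n+1)` is at most `C H^{1 - c ε log(1/ε)}`. -/
theorem result (Δ : ℝ → ℝ)
    (hΔ : ∀ x : ℝ, Δ x = (∑ j ∈ Finset.Icc 1 ⌊x⌋₊, (j.divisors.card : ℝ)) - x * Real.log x
      - (2 * Real.eulerMascheroniConstant - 1) * x) :
    ∀ δ : ℝ, 0 < δ → ∃ c : ℝ, 0 < c ∧ ∀ ε : ℝ, 0 < ε → ε ≤ c → ∃ C : ℝ, 0 < C ∧
      ∀ K H : ℕ, 1 ≤ K → (K : ℝ) ^ (1 / 2 + δ) ≤ H →
      (((Finset.Ico K (K + H)).filter (fun n : ℕ =>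
          ∃ y : ℝ, (n : ℝ) ≤ y ∧ y < n + 1 ∧ y ^ (1 / 4 + ε) < |Δ y|)).card : ℝ)
        ≤ C * (H : ℝ) ^ (1 - c * (ε * Real.log (1 / ε))) := by
  have hD : Δ = Pool.Agent.Y969.SW.Dl := funext hΔ
  subst hD
  exact Pool.Agent.Y969.SW.exc_divisor

end Pool.Agent.Results.MP_bc6037_nt.ExceptionalSets
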