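import Mathlib
import Pool.Agent.H383.OM.G

open Filter Topology MeasureTheory

namespace Pool.Agent.Results.MP_bc6037_nt.OmegaMinus

/-- Large negative values of the error term `Δ₂(x) = ∑_{n ≤ x} d(n) - x log x - (2γ-1)x` of the divisor
problem (`k = 2`) at integers: with an absolute constant `c > 0`, for all large `X` there is an integer
`n ∈ [√X, X]` with `Δ₂(n) ≤ -c (n log n)^{1/4} (log log log n)^{-3/4}`. -/
theorem result : ∃ c : ℝ, 0 < c ∧ ∀ᶠ X : ℝ in atTop, ∃ n : ℕ, √X ≤ n ∧ (n : ℝ) ≤ X ∧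
    (∑ j ∈ Finset.Icc 1 n, (j.divisors.card : ℝ)) - n * Real.log n
        - (2 * Real.eulerMascheroniConstant - 1) * n
      ≤ -c * ((n : ℝ) * Real.log n) ^ (1 / 4 : ℝ) * (Real.log (Real.log (Real.log n))) ^ (-(3 / 4) : ℝ) := by
  obtain ⟨c, hc, h⟩ := Pool.Agent.H383.OM.omega_minus
  refine ⟨c, hc, ?_⟩
  filter_upwards [h] with X hX
  obtain ⟨n, h1, h2, h3⟩ := hX
  refine ⟨n, h1, h2, ?_⟩
  have e : Pool.Agent.H387R2.Vor.Del (n : ℝ) = (∑ j ∈ Finset.Icc 1 n, (j.divisors.card : ℝ)) - n * Real.log n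
        - (2 * Real.eulerMascheroniConstant - 1) * n := by
    unfold Pool.Agent.H387R2.Vor.Del Pool.Agent.H387R2.Vor.Dsum
    rw [Nat.floor_natCast]
    rfl
  rw [← e]
  exact h3

end Pool.Agent.Results.MP_bc6037_nt.OmegaMinus
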