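import Mathlib
import Pool.Agent.H383.DivF
import Pool.Agent.H452R2.Om.O10

open Filter Topology MeasureTheory

namespace Pool.Agent.Results.MP_bc6037_nt.OmegaPlusCount

open Classical in
/-- Large positive values of the error term `Δ₂(x) = ∑_{n ≤ x} d(n) - x log x - (2γ-1)x` of the divisor problem
(`k = 2`) along `x = an² + c` (`a > 0`, `c ≥ 0`), in the full range up to the conjectured maximal order of the
leading terms: for all large `N` and all `V` between a constant and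
`c₀ (log N)^{1/4} (log log N)^{(3/4)(2^{4/3}-1)}` the number of `1 ≤ n ≤ N` with `Δ₂(x) ≥ V x^{1/4}` is at least
`N exp(-C₀ V⁴ (log V)^{-3(2^{4/3}-1)})`, and this is at least `N^{1-ε}`. -/
theorem result (Δ : ℝ → ℝ)
    (hΔ : ∀ x : ℝ, Δ x = (∑ j ∈ Finset.Icc 1 ⌊x⌋₊, (j.divisors.card : ℝ)) - x * Real.log x
      - (2 * Real.eulerMascheroniConstant - 1) * x) (a c : ℝ) (ha : 0 < a) (hc : 0 ≤ c) :
    ∃ C₀ V₀ : ℝ, 0 < C₀ ∧ 1 < V₀ ∧ ∀ ε : ℝ, 0 < ε → ∃ c₀ : ℝ, 0 < c₀ ∧ ∃ N₀ : ℕ, ∀ N : ℕ, N₀ ≤ N →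
      ∀ V : ℝ, V₀ ≤ V →
        V ≤ c₀ * (Real.log N) ^ (1 / 4 : ℝ) *
          (Real.log (Real.log N)) ^ ((3 / 4) * ((2 : ℝ) ^ (4 / 3 : ℝ) - 1)) →
        (N : ℝ) ^ (1 - ε) ≤
          N * Real.exp (-(C₀ * V ^ 4 * (Real.log V) ^ (-(3 * ((2 : ℝ) ^ (4 / 3 : ℝ) - 1))))) ∧
        N * Real.exp (-(C₀ * V ^ 4 * (Real.log V) ^ (-(3 * ((2 : ℝ) ^ (4 / 3 : ℝ) - 1))))) ≤
          (((Finset.Icc 1 N).filter (fun n : ℕ =>
            V * (a * n ^ 2 + c) ^ (1 / 4 : ℝ) ≤ Δ (a * n ^ 2 + c))).card : ℝ) := by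
  have hD : Δ = Pool.Agent.H383.Div.Dx := funext hΔ
  subst hD
  exact Pool.Agent.H452R2.Om.div_tail Pool.Agent.H383.Div.vor ha hc

end Pool.Agent.Results.MP_bc6037_nt.OmegaPlusCount
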